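import Pool.Agent.Helper27.PHV.Defs

/-!
# MP_8bf717_co, project PHV: the pentagons

Walls parallel to the right floor line; the roof line is the right roof line, the floor lines are
the left floor line and the left wall `x = -lam`.
-/

set_option autoImplicit false

open MeasureTheory Set

namespace Pool.Agent.Helper39.PHV

open Pool.Agent.Helper37.PH Pool.Agent.Helper61.PH Pool.Agent.Helper27.PHU
open Pool.Agent.Helper27.PHV

/-- the involution `(x, y) ↦ (y - s x, x + s (y - s x))` -/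
noncomputable def shFun (s : ℝ) : (ℝ × ℝ) →ₗ[ℝ] (ℝ × ℝ) where
  toFun q := (q.2 - s * q.1, q.1 + s * (q.2 - s * q.1))
  map_add' p q := by
    ext
    · simp; ring
    · simp; ring
  map_smul' r q := by
    ext
    · simp; ring
    · simp; ring

theorem shFun_apply (s : ℝ) (q : ℝ × ℝ) :
    shFun s q = (q.2 - s * q.1, q.1 + s * (q.2 - s * q.1)) := rfl

theorem shFun_invol (s : ℝ) : Function.Involutive (shFun s) := by
  intro q
  rw [shFun_apply, shFun_apply]
  ext
  · simp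
  · simp

noncomputable def sh (s : ℝ) : (ℝ × ℝ) ≃ₗ[ℝ] (ℝ × ℝ) :=
  LinearEquiv.ofInvolutive (shFun s) (shFun_invol s)

theorem sh_apply (s : ℝ) (q : ℝ × ℝ) :
    sh s q = (q.2 - s * q.1, q.1 + s * (q.2 - s * q.1)) := rfl

theorem det_sh (s : ℝ) : |LinearMap.det (sh s : (ℝ × ℝ) →ₗ[ℝ] (ℝ × ℝ))| = 1 := by
  apply Pool.Agent.Helper83.PHU.abs_det_invol
  intro q
  exact shFun_invol s q

/-- the sheared single-roof cover: `X = y - s x` is the wall coordinate -/
theorem cov_shear {K : Set (ℝ × ℝ)} {s X0 X1 R m E0 n lam V : ℝ} (hm : 0 < m) (hn : 0 < n)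
    (hX : X0 < X1)
    (hK : ∀ z ∈ K, X0 ≤ z.2 - s * z.1 ∧ z.2 - s * z.1 ≤ X1 ∧ m * z.1 + (z.2 - s * z.1) ≤ R ∧
      E0 ≤ n * z.1 + (z.2 - s * z.1) ∧ -lam ≤ z.1)
    (h3 : X0 ≤ E0 + n * lam) (h4 : E0 + n * lam ≤ X1)
    (hw0 : (E0 - X0) / n ≤ (R - X0) / m) (hw1 : -lam ≤ (R - X1) / m)
    (hV : (R - X0) ^ 2 / (2 * m) - (E0 - X0) ^ 2 / (2 * n) + lam * (R - E0)
      + (m - n) * lam ^ 2 / 2 - m * ((R - X1) / m + lam) ^ 2 / 2 ≤ V) : Cov K V := by
  apply Pool.Agent.Helper83.PHU.Cov_affE (sh s) 0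
  rw [det_sh, one_mul]
  have e1 : R / m + (s - 1 / m) * X0 = (R - X0) / m + s * X0 := by
    field_simp
    ring
  have e2 : R / m + (s - 1 / m) * X1 = (R - X1) / m + s * X1 := by
    field_simp
    ring
  have e3 : E0 / n + (s - 1 / n) * X0 = (E0 - X0) / n + s * X0 := by
    field_simp
    ring
  have e4 : E0 / n + (s - 1 / n) * X1 = (E0 - X1) / n + s * X1 := by
    field_simp
    ring
  refine Pool.Agent.Helper85.PHU.cov_single (X0 := X0) (X1 := X1) (a := R / m) (b := s - 1 / m)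
    (c1 := E0 / n) (d1 := s - 1 / n) (c2 := -lam) (d2 := s) (q := E0 + n * lam) hX ?_ ?_ ?_ ?_ ?_
    h3 h4 ?_
  · rintro _ ⟨z, hz, rfl⟩
    obtain ⟨k1, k2, k3, k4, k5⟩ := hK z hz
    rw [affE_apply, sub_zero, sh_apply]
    refine ⟨k1, k2, ?_, ?_, ?_⟩
    · show z.1 + s * (z.2 - s * z.1) ≤ R / m + (s - 1 / m) * (z.2 - s * z.1)
      have : z.1 ≤ (R - (z.2 - s * z.1)) / m := by
        rw [le_div_iff₀ hm]
        linarith
      have e : R / m + (s - 1 / m) * (z.2 - s * z.1) =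
          (R - (z.2 - s * z.1)) / m + s * (z.2 - s * z.1) := by
        field_simp
        ring
      rw [e]
      linarith
    · show E0 / n + (s - 1 / n) * (z.2 - s * z.1) ≤ z.1 + s * (z.2 - s * z.1)
      have : (E0 - (z.2 - s * z.1)) / n ≤ z.1 := by
        rw [div_le_iff₀ hn]
        linarith
      have e : E0 / n + (s - 1 / n) * (z.2 - s * z.1) =
          (E0 - (z.2 - s * z.1)) / n + s * (z.2 - s * z.1) := by
        field_simp
        ring
      rw [e]
      linarith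
    · show -lam + s * (z.2 - s * z.1) ≤ z.1 + s * (z.2 - s * z.1)
      linarith
  · rw [e3]
    have : -lam ≤ (E0 - X0) / n := by
      rw [le_div_iff₀ hn]
      linarith
    linarith
  · rw [e4]
    have : (E0 - X1) / n ≤ -lam := by
      rw [div_le_iff₀ hn]
      linarith
    linarith
  · rw [e1, e3]
    linarith
  · rw [e2]
    linarith
  · refine le_trans (le_of_eq ?_) hV
    field_simp
    ring

/-- the area in reduced quantities -/
theorem area_core {m n m2 n2 W lam rho X G H P Q A B e2 f1 f2 u : ℝ} (hm : 0 < m) (hn : 0 < n)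
    (hW0 : 0 < W) (hmm : m = m2 + n2) (hm2 : 2 * m = 1 + P + Q) (hW : W = 1 + lam + rho)
    (hX : W * X = 2 - W + W * (G + H) - W * P * A - W * Q * B)
    (hX2 : W * X = 1 + 2 * (f1 + f2) - 2 * m * rho)
    (hB : n2 * W * (1 - B) = n2 + f2 - e2 + n * lam)
    (hn2 : 2 * n2 ^ 2 = Q * n) :
    (1 / 2 + f1 + f2 + m) ^ 2 / (2 * m) - (n2 + f2 - e2) ^ 2 / (2 * n)
      + lam * (1 / 2 + f1 + m2 + e2) + (m - n) * lam ^ 2 / 2 - m * u ^ 2 / 2 =
    ar W (G + H) (P * (1 - 2 * A) - Q * B ^ 2 + X ^ 2 / (1 + P + Q)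
      - (1 + P + Q) * (u / W) ^ 2) := by
  have t1 : (1 / 2 + f1 + f2 + m) = W * X / 2 + m * (W - lam) := by
    rw [hX2, hW]
    ring
  have t2 : n2 + f2 - e2 = n2 * W * (1 - B) - n * lam := by
    rw [hB]
    ring
  have t3 : (n2 + f2 - e2) ^ 2 / (2 * n) =
      Q * W ^ 2 * (1 - B) ^ 2 / 4 - n2 * W * (1 - B) * lam + n * lam ^ 2 / 2 := by
    rw [t2]
    field_simp
    linear_combination (2 * W ^ 2 * (1 - B) ^ 2) * hn2
  have t4 : (1 / 2 + f1 + f2 + m) ^ 2 / (2 * m) =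
      W ^ 2 * X ^ 2 / (8 * m) + W * X / 2 * (W - lam) + m * (W - lam) ^ 2 / 2 := by
    rw [t1]
    field_simp
    ring
  have t5 : W ^ 2 * (X ^ 2 / (1 + P + Q)) / 4 = W ^ 2 * X ^ 2 / (8 * m) := by
    rw [← hm2]
    field_simp
    ring
  have t6 : W ^ 2 * ((1 + P + Q) * (u / W) ^ 2) / 4 = m * u ^ 2 / 2 := by
    rw [← hm2]
    field_simp
    ring
  unfold ar
  have t7 : W ^ 2 * (P * (1 - 2 * A) - Q * B ^ 2 + X ^ 2 / (1 + P + Q)
      - (1 + P + Q) * (u / W) ^ 2) / 4 = W ^ 2 * (P * (1 - 2 * A)) / 4 - W ^ 2 * (Q * B ^ 2) / 4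
      + W ^ 2 * (X ^ 2 / (1 + P + Q)) / 4 - W ^ 2 * ((1 + P + Q) * (u / W) ^ 2) / 4 := by ring
  rw [t7, t5, t6, t3, t4]
  have t8 : W * X / 2 * (W - lam) = W * (2 - W + W * (G + H) - W * P * A - W * Q * B) / 2
      - (1 + 2 * (f1 + f2) - 2 * m * rho) / 2 * lam := by
    rw [← hX, ← hX2]
    ring
  rw [t8]
  have t9 : m * (W - lam) ^ 2 / 2 = (1 + P + Q) * W ^ 2 / 4 - m * W * lam + m * lam ^ 2 / 2 := by
    rw [← hm2]
    ring
  rw [t9]
  have t10 : n2 * W * (1 - B) * lam = (n2 + f2 - e2 + n * lam) * lam := by rw [hB]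
  rw [t10]
  have t11 : m * W * lam = m * (1 + lam + rho) * lam := by rw [hW]
  rw [t11, hmm]
  ring

/-- the pentagon cover, in the frame -/
theorem cov_pent {K : Set (ℝ × ℝ)} {b c1 c2 r1 r2 l1 l2 lam rho e1 f1 e2 f2 X1 V : ℝ}
    (h : Frame K b c1 c2 r1 r2 l1 l2) (hf : Feat K b c1 c2 lam rho e1 f1 e2 f2)
    (hX0 : b < X1) (hK : ∀ z ∈ K, z.2 - b / (1 - c2) * z.1 ≤ X1)
    (h4 : b - e2 + (b / c2 + b / (1 - c2)) * lam ≤ X1)
    (hu : X1 ≤ b + 1 / 2 + f1 + (1 / 2 - b) / (1 - c1) +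
      ((1 / 2 - b) / (1 - c1) + b / (1 - c2)) * lam)
    (hV : (1 / 2 + f1 + f2 + ((1 / 2 - b) / (1 - c1) + b / (1 - c2))) ^ 2
        / (2 * ((1 / 2 - b) / (1 - c1) + b / (1 - c2)))
      - (b / (1 - c2) + f2 - e2) ^ 2 / (2 * (b / c2 + b / (1 - c2)))
      + lam * (1 / 2 + f1 + (1 / 2 - b) / (1 - c1) + e2)
      + (((1 / 2 - b) / (1 - c1) + b / (1 - c2)) - (b / c2 + b / (1 - c2))) * lam ^ 2 / 2
      - ((1 / 2 - b) / (1 - c1) + b / (1 - c2)) *
        ((b + 1 / 2 + f1 + (1 / 2 - b) / (1 - c1) - X1)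
          / ((1 / 2 - b) / (1 - c1) + b / (1 - c2)) + lam) ^ 2 / 2 ≤ V) : Cov K V := by
  have hb0 := h.b0
  have hb1 := h.b1
  have hc1 := h.c10
  have hc1' : (0 : ℝ) < 1 - c1 := by linarith [h.c11]
  have hc2 := h.c20
  have hc2' : (0 : ℝ) < 1 - c2 := by linarith [h.c21]
  have ha : (0 : ℝ) < 1 / 2 - b := by linarith
  have hm2 : 0 < (1 / 2 - b) / (1 - c1) := by positivity
  have hn2 : 0 < b / (1 - c2) := by positivity
  have hn1 : 0 < b / c2 := by positivity
  have hbn2 : b ≤ b / (1 - c2) := by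
    rw [le_div_iff₀ hc2']
    nlinarith
  have hbr : ∀ x : ℝ, b * ((1 - x) / (1 - c2)) = b / (1 - c2) * (1 - x) := by
    intro x
    ring
  have hbl : ∀ x : ℝ, b * (x / c2) = b / c2 * x := by
    intro x
    ring
  have htr : ∀ x : ℝ, (1 / 2 - b) * ((1 - x) / (1 - c1)) = (1 / 2 - b) / (1 - c1) * (1 - x) := by
    intro x
    ring
  set m2 := (1 / 2 - b) / (1 - c1) with em2
  set n2 := b / (1 - c2) with en2
  set n1 := b / c2 with en1
  have hf20 := hf.f20
  have hf21 := hf.f21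
  have he20 := hf.e20
  have he21 := hf.e21
  have hf10 := hf.f10
  have hlam := hf.lam0
  have hc : n2 * (1 - c2) = b := by
    rw [en2]
    field_simp
  have hc' : n1 * c2 = b := by
    rw [en1]
    field_simp
  refine cov_shear (s := n2) (X0 := b - f2 - n2) (X1 := X1) (R := b + 1 / 2 + f1 + m2)
    (m := m2 + n2) (E0 := b - e2) (n := n1 + n2) (lam := lam) (by linarith) (by linarith)
    (by linarith) ?_ ?_ ?_ ?_ ?_ ?_
  · intro z hz
    have k1 := hf.br z hz
    have k2 := hf.bl z hz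
    have k3 := hf.tr z hz
    have k4 := hf.hl z hz
    rw [hbr] at k1
    rw [hbl] at k2
    rw [htr] at k3
    refine ⟨by linarith, hK z hz, by linarith, by linarith, k4⟩
  · have : 0 ≤ (n1 + n2) * lam := by positivity
    linarith
  · linarith
  · have g1 : (b - e2 - (b - f2 - n2)) / (n1 + n2) ≤ 1 := by
      rw [div_le_one (by linarith)]
      have : b ≤ n1 := by
        rw [en1, le_div_iff₀ hc2]
        nlinarith
      linarith
    have g2 : 1 ≤ (b + 1 / 2 + f1 + m2 - (b - f2 - n2)) / (m2 + n2) := by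
      rw [le_div_iff₀ (by linarith)]
      linarith
    linarith
  · rw [le_div_iff₀ (by linarith)]
    linarith
  · refine le_trans (le_of_eq ?_) hV
    have g1 : b + 1 / 2 + f1 + m2 - (b - f2 - n2) = 1 / 2 + f1 + f2 + (m2 + n2) := by ring
    have g2 : b - e2 - (b - f2 - n2) = n2 + f2 - e2 := by ring
    have g3 : b + 1 / 2 + f1 + m2 - (b - e2) = 1 / 2 + f1 + m2 + e2 := by ring
    rw [g1, g2, g3]

/-- all the identities between the reduced quantities -/
theorem red_id {K : Set (ℝ × ℝ)}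
    {b c1 c2 r1 r2 l1 l2 lam rho e1 f1 e2 f2 W T S G H P Q A B X : ℝ}
    (h : Frame K b c1 c2 r1 r2 l1 l2) (hf : Feat K b c1 c2 lam rho e1 f1 e2 f2)
    (hR : Red b c1 c2 lam rho e1 f1 e2 f2 W T S G H P Q A B X) :
    0 < W ∧ W * X = 2 - W + W * (G + H) - W * P * A - W * Q * B ∧
    2 * ((1 / 2 - b) / (1 - c1)) = T + P ∧ 2 * (b / (1 - c2)) = S + Q ∧
    2 * ((1 / 2 - b) / (1 - c1)) * c1 = P ∧
    W * X = 1 + 2 * (f1 + f2) - 2 * ((1 / 2 - b) / (1 - c1) + b / (1 - c2)) * rho ∧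
    b / (1 - c2) * W * (1 - B) = b / (1 - c2) + f2 - e2 + (b / c2 + b / (1 - c2)) * lam ∧
    2 * (b / (1 - c2)) ^ 2 = Q * (b / c2 + b / (1 - c2)) ∧
    (1 / 2 - b) / (1 - c1) * W * (1 - A) = f1 - e1 + (1 / 2 - b) / (1 - c1) +
      ((1 / 2 - b) / c1 + (1 / 2 - b) / (1 - c1)) * lam ∧
    W * G = 2 * (c1 * e1 + (1 - c1) * f1) := by
  have hb0 := h.b0
  have hb1 := h.b1
  have hc1 := h.c10
  have hc1' : (0 : ℝ) < 1 - c1 := by linarith [h.c11]
  have hc2 := h.c20
  have hc2' : (0 : ℝ) < 1 - c2 := by linarith [h.c21]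
  have ha : (0 : ℝ) < 1 / 2 - b := by linarith
  have ha2 : (0 : ℝ) < 1 - 2 * b := by linarith
  have hW : 0 < 1 + lam + rho := by linarith [hf.lam0, hf.rho0]
  have eX : W * X = 2 - W + W * (G + H) - W * P * A - W * Q * B := by
    rw [hR.eX]
    have : 0 < W := by rw [hR.eW]; exact hW
    field_simp
    ring
  have eG : W * G = 2 * (c1 * e1 + (1 - c1) * f1) := by
    rw [hR.eW, hR.eG, gg]
    field_simp
  have eH : W * H = 2 * (c2 * e2 + (1 - c2) * f2) := by
    rw [hR.eW, hR.eH, gg]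
    field_simp
  have eA : (1 / 2 - b) * (W * A) = (1 - c1) * (e1 - f1) - (1 - c1) / c1 * lam * (1 / 2 - b)
      + rho * (1 / 2 - b) := by
    rw [hR.eW, hR.eA, xi]
    field_simp
  have eB : b * (W * B) = (1 - c2) * (e2 - f2) - (1 - c2) / c2 * lam * b + rho * b := by
    rw [hR.eW, hR.eB, xi]
    field_simp
  have eP : P = 2 * (1 / 2 - b) * c1 / (1 - c1) := by
    rw [hR.eP, pp]
    ring
  have eQ : Q = 2 * b * c2 / (1 - c2) := by
    rw [hR.eQ, pp]
  have ePA : W * P * A = 2 * c1 * (e1 - f1) - 2 * (1 / 2 - b) * lam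
      + 2 * ((1 / 2 - b) / (1 - c1)) * c1 * rho := by
    have : W * P * A = 2 * c1 / (1 - c1) * ((1 / 2 - b) * (W * A)) := by
      rw [eP]
      ring
    rw [this, eA]
    field_simp
  have eQB : W * Q * B = 2 * c2 * (e2 - f2) - 2 * b * lam + 2 * (b / (1 - c2)) * c2 * rho := by
    have : W * Q * B = 2 * c2 / (1 - c2) * (b * (W * B)) := by
      rw [eQ]
      ring
    rw [this, eB]
    field_simp
  refine ⟨by rw [hR.eW]; exact hW, eX, ?_, ?_, ?_, ?_, ?_, ?_, ?_, eG⟩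
  · rw [hR.eT, hR.eP, pp]
    field_simp
    ring
  · rw [hR.eS, eQ]
    field_simp
    ring
  · rw [eP]
    ring
  · rw [eX, mul_add, eG, eH, ePA, eQB, hR.eW]
    field_simp
    ring
  · have : b / (1 - c2) * W * (1 - B) = b / (1 - c2) * W - (b * (W * B)) / (1 - c2) := by ring
    rw [this, eB, hR.eW]
    field_simp
    ring
  · rw [eQ]
    field_simp
    ring
  · have : (1 / 2 - b) / (1 - c1) * W * (1 - A) = (1 / 2 - b) / (1 - c1) * W
        - ((1 / 2 - b) * (W * A)) / (1 - c1) := by ring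
    rw [this, eA, hR.eW]
    field_simp
    ring

/-- the point of the left wall -/
theorem left_wall {K : Set (ℝ × ℝ)} {b c1 c2 lam rho e1 f1 e2 f2 : ℝ}
    (hf : Feat K b c1 c2 lam rho e1 f1 e2 f2) :
    b - e2 + b / c2 * lam ≤ b + 1 / 2 + e1 - (1 / 2 - b) / c1 * lam := by
  obtain ⟨y, hy⟩ := hf.xl
  have k1 := hf.bl _ hy
  have k2 := hf.tl _ hy
  have e1 : b * (-lam / c2) = -(b / c2 * lam) := by ring
  have e2 : (1 / 2 - b) * (-lam / c1) = -((1 / 2 - b) / c1 * lam) := by ring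
  simp only at k1 k2
  rw [e1] at k1
  rw [e2] at k2
  linarith

theorem cov_pent1 {K : Set (ℝ × ℝ)}
    {b c1 c2 r1 r2 l1 l2 lam rho e1 f1 e2 f2 W T S G H P Q A B X : ℝ}
    (h : Frame K b c1 c2 r1 r2 l1 l2) (hf : Feat K b c1 c2 lam rho e1 f1 e2 f2)
    (hR : Red b c1 c2 lam rho e1 f1 e2 f2 W T S G H P Q A B X)
    (hc : T * (T + P) ≤ P * (S + Q)) :
    Cov K (ar W (G + H) (-P * A ^ 2 - Q * B ^ 2
      + ((1 - A) ^ 2 * (P * (S + Q) - T * (T + P)) + X ^ 2) / (1 + P + Q))) := by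
  obtain ⟨hW, hX, hTP, hSQ, hP, hX2, hB, hn2q, hA, hG⟩ := red_id h hf hR
  have hb0 := h.b0
  have hb1 := h.b1
  have hc1 := h.c10
  have hc1' : (0 : ℝ) < 1 - c1 := by linarith [h.c11]
  have hc2 := h.c20
  have hc2' : (0 : ℝ) < 1 - c2 := by linarith [h.c21]
  have ha : (0 : ℝ) < 1 / 2 - b := by linarith
  have ha2 : (0 : ℝ) < 1 - 2 * b := by linarith
  have hm2 : 0 < (1 / 2 - b) / (1 - c1) := by positivity
  have hm1 : 0 < (1 / 2 - b) / c1 := by positivity
  have hn2 : 0 < b / (1 - c2) := by positivity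
  have hn1 : 0 < b / c2 := by positivity
  have hlw := left_wall hf
  have hlam := hf.lam0
  have hT : T = 2 * (1 / 2 - b) := by
    rw [hR.eT]
    ring
  have hslope : (1 / 2 - b) / c1 ≤ b / (1 - c2) := by
    rw [div_le_iff₀ hc1]
    have k : (1 / 2 - b) * (2 * (2 * ((1 / 2 - b) / (1 - c1)))) ≤
        (b / (1 - c2) * c1) * (2 * (2 * ((1 / 2 - b) / (1 - c1)))) := by
      have e1 : T * (T + P) = (1 / 2 - b) * (2 * (2 * ((1 / 2 - b) / (1 - c1)))) := by
        rw [← hTP, hT]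
        ring
      have e2 : P * (S + Q) = (b / (1 - c2) * c1) * (2 * (2 * ((1 / 2 - b) / (1 - c1)))) := by
        rw [← hSQ, ← hP]
        ring
      rw [← e1, ← e2]
      exact hc
    exact le_of_mul_le_mul_right k (by positivity)
  have hST : T + S = 1 := by
    rw [hR.eT, hR.eS]
    ring
  have hm12 : e1 ≤ (1 / 2 - b) / (1 - c1) := by
    rw [le_div_iff₀ hc1']
    have := hf.e11
    have := hf.e10
    nlinarith
  have hf10 := hf.f10
  have he10 := hf.e10
  set m2 := (1 / 2 - b) / (1 - c1) with em2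
  set n2 := b / (1 - c2) with en2
  set n1 := b / c2 with en1
  set m1 := (1 / 2 - b) / c1 with em1
  have hmm : 2 * (m2 + n2) = 1 + P + Q := by linarith
  have hs : (1 + P + Q) ≠ 0 := by
    rw [← hmm]
    positivity
  refine cov_pent (X1 := b + 1 / 2 + e1 - m1 * lam + n2 * lam) h hf ?_ ?_ ?_ ?_ ?_
  · have : m1 * lam ≤ n2 * lam := mul_le_mul_of_nonneg_right hslope hlam
    linarith
  · intro z hz
    have k1 := hf.tl z hz
    have k2 := hf.hl z hz
    have e : (1 / 2 - b) * (z.1 / c1) = m1 * z.1 := by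
      rw [em1]
      ring
    rw [e] at k1
    rw [← en2]
    have := mul_le_mul_of_nonneg_right hslope (by linarith : 0 ≤ z.1 + lam)
    linarith
  · rw [← en1, ← en2]
    linarith
  · rw [← em2, ← en2]
    have := mul_nonneg hm1.le hlam
    have := mul_nonneg hm2.le hlam
    linarith
  · rw [← em2, ← en2, ← en1]
    refine le_trans (le_of_eq (area_core (W := W) (rho := rho) (X := X) (G := G) (H := H) (P := P)
      (Q := Q) (A := A) (B := B) (by linarith) (by linarith) hW rfl hmm hR.eW hX hX2 hB hn2q))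
      (le_of_eq ?_)
    congr 1
    have hu : ((b + 1 / 2 + f1 + m2 - (b + 1 / 2 + e1 - m1 * lam + n2 * lam)) / (m2 + n2) + lam)
        / W = (T + P) * (1 - A) / (1 + P + Q) := by
      have e1 : (b + 1 / 2 + f1 + m2 - (b + 1 / 2 + e1 - m1 * lam + n2 * lam)) =
          m2 * W * (1 - A) - (m2 + n2) * lam := by
        rw [hA]
        ring
      rw [e1, ← hTP, ← hmm]
      have : m2 + n2 ≠ 0 := by positivity
      field_simp
      ring
    rw [hu]
    have hS : S = 1 - T := by linarith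
    rw [hS]
    field_simp
    ring

theorem ar_mono {W g J J' : ℝ} (h : J ≤ J') : ar W g J ≤ ar W g J' := by
  unfold ar
  have := mul_le_mul_of_nonneg_left h (by positivity : 0 ≤ W ^ 2 / 4)
  linarith

theorem pent2_alg {T P s c v g N : ℝ} (hs : 0 < s) (hN : N = T + P + s) (hN0 : 0 < N)
    (hc : c * (T + P) = P) (h : P * s ≤ T * (T + P)) :
    P * (v + g) ^ 2 - N * (c * v + (T + P) / N * g) ^ 2 ≤ (T * v) ^ 2 / (4 * s) := by
  have e : N * (c * v + (T + P) / N * g) ^ 2 =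
      N * c ^ 2 * v ^ 2 + 2 * (c * (T + P)) * v * g + (T + P) ^ 2 / N * g ^ 2 := by
    field_simp
    ring
  have e2 : (T + P) ^ 2 / N = P + (T * (T + P) - P * s) / N := by
    field_simp
    rw [hN]
    ring
  have e3 : (T * v) ^ 2 / (4 * s) =
      (c * T - s * c ^ 2) * v ^ 2 + (T - 2 * s * c) ^ 2 * v ^ 2 / (4 * s) := by
    field_simp
    ring
  have e4 : N * c ^ 2 = P * c + s * c ^ 2 := by
    rw [hN]
    linear_combination c * hc
  have e5 : c * T = P - P * c := by linear_combination hc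
  rw [e, e2, e3, hc, e4, e5]
  have p1 : 0 ≤ (T * (T + P) - P * s) / N := div_nonneg (by linarith) hN0.le
  have p2 := mul_nonneg p1 (sq_nonneg g)
  have p3 : 0 ≤ (T - 2 * s * c) ^ 2 * v ^ 2 / (4 * s) := by positivity
  nlinarith

theorem cov_pent2 {K : Set (ℝ × ℝ)}
    {b c1 c2 r1 r2 l1 l2 lam rho e1 f1 e2 f2 W T S G H P Q A B X : ℝ}
    (h : Frame K b c1 c2 r1 r2 l1 l2) (hf : Feat K b c1 c2 lam rho e1 f1 e2 f2)
    (hR : Red b c1 c2 lam rho e1 f1 e2 f2 W T S G H P Q A B X)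
    (hc : P * (S + Q) ≤ T * (T + P)) :
    Cov K (ar W (G + H) (-P * A ^ 2 - Q * B ^ 2
      + (T * (1 - A) - G) ^ 2 / (4 * (S + Q)) + X ^ 2 / (1 + P + Q))) := by
  obtain ⟨hW, hX, hTP, hSQ, hP, hX2, hB, hn2q, hA, hG⟩ := red_id h hf hR
  have hb0 := h.b0
  have hb1 := h.b1
  have hc1 := h.c10
  have hc1' : (0 : ℝ) < 1 - c1 := by linarith [h.c11]
  have hc2 := h.c20
  have hc2' : (0 : ℝ) < 1 - c2 := by linarith [h.c21]
  have ha : (0 : ℝ) < 1 / 2 - b := by linarith
  have ha2 : (0 : ℝ) < 1 - 2 * b := by linarith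
  have hm2 : 0 < (1 / 2 - b) / (1 - c1) := by positivity
  have hm1 : 0 < (1 / 2 - b) / c1 := by positivity
  have hn2 : 0 < b / (1 - c2) := by positivity
  have hn1 : 0 < b / c2 := by positivity
  have hlw := left_wall hf
  have hlam := hf.lam0
  have hT : T = 2 * (1 / 2 - b) := by
    rw [hR.eT]
    ring
  have hslope : b / (1 - c2) ≤ (1 / 2 - b) / c1 := by
    rw [le_div_iff₀ hc1]
    have k : (b / (1 - c2) * c1) * (2 * (2 * ((1 / 2 - b) / (1 - c1)))) ≤
        (1 / 2 - b) * (2 * (2 * ((1 / 2 - b) / (1 - c1)))) := by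
      have e1 : T * (T + P) = (1 / 2 - b) * (2 * (2 * ((1 / 2 - b) / (1 - c1)))) := by
        rw [← hTP, hT]
        ring
      have e2 : P * (S + Q) = (b / (1 - c2) * c1) * (2 * (2 * ((1 / 2 - b) / (1 - c1)))) := by
        rw [← hSQ, ← hP]
        ring
      rw [← e1, ← e2]
      exact hc
    exact le_of_mul_le_mul_right k (by positivity)
  have hST : T + S = 1 := by
    rw [hR.eT, hR.eS]
    ring
  have hf10 := hf.f10
  have he10 := hf.e10
  have he11 := hf.e11
  have hm2c : (1 / 2 - b) / (1 - c1) * (1 - c1) = 1 / 2 - b := by field_simp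
  have hm1c : (1 / 2 - b) / c1 * c1 = 1 / 2 - b := by field_simp
  set m2 := (1 / 2 - b) / (1 - c1) with em2
  set n2 := b / (1 - c2) with en2
  set n1 := b / c2 with en1
  set m1 := (1 / 2 - b) / c1 with em1
  have hmm : 2 * (m2 + n2) = 1 + P + Q := by linarith
  have hs : (1 + P + Q) ≠ 0 := by
    rw [← hmm]
    positivity
  obtain ⟨QL, hQL⟩ : ∃ QL : ℝ, QL = c1 - c1 * e1 / (1 / 2 - b) := ⟨_, rfl⟩
  have hQL0 : 0 ≤ QL := by
    rw [hQL]
    have : c1 * e1 / (1 / 2 - b) ≤ c1 := by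
      rw [div_le_iff₀ ha]
      exact mul_le_mul_of_nonneg_left he11 hc1.le
    linarith
  have hQL1 : QL ≤ c1 := by
    rw [hQL]
    have : 0 ≤ c1 * e1 / (1 / 2 - b) := by positivity
    linarith
  have hQLm : m1 * QL = 1 / 2 - b - e1 := by
    have e2 : m1 * (c1 - c1 * e1 / (1 / 2 - b)) =
        m1 * c1 - m1 * c1 * (e1 / (1 / 2 - b)) := by ring
    have e3 : (1 / 2 - b) * (e1 / (1 / 2 - b)) = e1 := by
      rw [mul_div_assoc']
      exact mul_div_cancel_left₀ _ ha.ne'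
    rw [hQL, e2, hm1c, e3]
  have hn2c : n2 * QL < n2 := by
    have : n2 * QL < n2 * 1 := mul_lt_mul_of_pos_left (by linarith [h.c11]) hn2
    linarith
  refine cov_pent (X1 := 1 - n2 * QL) h hf ?_ ?_ ?_ ?_ ?_
  · have : n2 * QL ≤ m1 * QL := mul_le_mul_of_nonneg_right hslope hQL0
    linarith
  · intro z hz
    have k1 := hf.tl z hz
    have k2 := h.top z hz
    have e : (1 / 2 - b) * (z.1 / c1) = m1 * z.1 := by
      rw [em1]
      ring
    rw [e] at k1
    rw [← en2]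
    rcases le_total QL z.1 with hz1 | hz1
    · have := mul_le_mul_of_nonneg_left hz1 hn2.le
      linarith
    · have := mul_le_mul_of_nonneg_right hslope (by linarith : 0 ≤ QL - z.1)
      linarith
  · rw [← en1, ← en2]
    have := mul_le_mul_of_nonneg_right hslope (by linarith : 0 ≤ QL + lam)
    linarith
  · rw [← em2, ← en2]
    have := mul_nonneg hn2.le hlam
    have := mul_nonneg hm2.le hlam
    have := mul_nonneg hn2.le hQL0
    have := mul_nonneg hm2.le hc1.le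
    linarith
  · rw [← em2, ← en2, ← en1]
    refine le_trans (le_of_eq (area_core (W := W) (rho := rho) (X := X) (G := G) (H := H) (P := P)
      (Q := Q) (A := A) (B := B) (by linarith) (by linarith) hW rfl hmm hR.eW hX hX2 hB hn2q)) ?_
    apply ar_mono
    have hT0 : 0 < T := by linarith
    have hs0 : 0 < S + Q := by linarith
    have hN0 : 0 < 1 + P + Q := by linarith
    have hWG : W * (G / T) = (c1 * e1 + (1 - c1) * f1) / (1 / 2 - b) := by
      have e2 : W * (G / T) = W * G / T := by ring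
      rw [e2, hG, hT]
      exact mul_div_mul_left _ _ (by norm_num)
    have hWA : W * (1 - A) = (f1 - e1 + m2 + (m1 + m2) * lam) / m2 := by
      rw [← hA]
      field_simp
    have hv : QL + lam = c1 * (W * (1 - A - G / T)) := by
      have e2 : c1 * (W * (1 - A - G / T)) = c1 * (W * (1 - A)) - c1 * (W * (G / T)) := by ring
      rw [e2, hWG, hWA, hQL, em1, em2]
      field_simp
      ring
    have hu : ((b + 1 / 2 + f1 + m2 - (1 - n2 * QL)) / (m2 + n2) + lam) / W =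
        c1 * (1 - A - G / T) + (T + P) / (1 + P + Q) * (G / T) := by
      have e3 : m2 * (W * (G / T)) = c1 * (e1 / (1 - c1)) + f1 := by
        rw [hWG, em2]
        field_simp
      have e4 : m2 * (QL + lam) = m2 * c1 - c1 * (e1 / (1 - c1)) + m2 * lam := by
        rw [hQL, em2]
        field_simp
      have e5 : (b + 1 / 2 + f1 + m2 - (1 - n2 * QL)) + (m2 + n2) * lam =
          W * ((m2 + n2) * (c1 * (1 - A - G / T)) + m2 * (G / T)) := by
        have e6 : W * ((m2 + n2) * (c1 * (1 - A - G / T)) + m2 * (G / T)) =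
            m2 * (c1 * (W * (1 - A - G / T))) + n2 * (c1 * (W * (1 - A - G / T)))
              + m2 * (W * (G / T)) := by ring
        rw [e6, ← hv, e3, e4]
        linarith
      have hm0 : m2 + n2 ≠ 0 := by positivity
      have e7 : (b + 1 / 2 + f1 + m2 - (1 - n2 * QL)) / (m2 + n2) + lam =
          ((b + 1 / 2 + f1 + m2 - (1 - n2 * QL)) + (m2 + n2) * lam) / (m2 + n2) := by
        field_simp
      rw [e7, e5, ← hTP, ← hmm]
      field_simp
    rw [hu]
    have hcP : c1 * (T + P) = P := by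
      rw [← hTP]
      linarith
    have key := pent2_alg (v := 1 - A - G / T) (g := G / T) (N := 1 + P + Q) hs0 (by linarith) hN0
      hcP hc
    have e8 : T * (1 - A - G / T) = T * (1 - A) - G := by
      have : T * (G / T) = G := by field_simp
      linear_combination -this
    rw [e8] at key
    have e9 : P * (1 - A - G / T + G / T) ^ 2 = P * (1 - 2 * A) + P * A ^ 2 := by ring
    rw [e9] at key
    linarith

end Pool.Agent.Helper39.PHV
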